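import Mathlib

set_option autoImplicit false

/-!
Upper domination number and upper minus domination number of a finite graph.
-/

namespace Pool.Agent.H80M

variable {V : Type} [Fintype V]

/-- `D` is a dominating set. -/
def IsDom (G : SimpleGraph V) (D : Finset V) : Prop := ∀ v, ∃ u ∈ D, u = v ∨ G.Adj v u

/-- `D` is a minimal dominating set. -/
def IsMinDom (G : SimpleGraph V) (D : Finset V) : Prop :=
  IsDom G D ∧ ∀ D' : Finset V, D' ⊂ D → ¬ IsDom G D'

/-- The upper domination number. -/
noncomputable def Gam (G : SimpleGraph V) : ℕ := sSup {k | ∃ D : Finset V, IsMinDom G D ∧ D.card = k}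

open Classical in
/-- The sum of `f` over the closed neighbourhood of `v`. -/
noncomputable def nsum (G : SimpleGraph V) (f : V → ℤ) (v : V) : ℤ :=
  ∑ u ∈ Finset.univ.filter (fun u => u = v ∨ G.Adj v u), f u

/-- `f` is a minus dominating function. -/
def IsMinus (G : SimpleGraph V) (f : V → ℤ) : Prop :=
  (∀ v, f v = -1 ∨ f v = 0 ∨ f v = 1) ∧ ∀ v, 1 ≤ nsum G f v

/-- `f` is a minimal minus dominating function. -/
def IsMinMinus (G : SimpleGraph V) (f : V → ℤ) : Prop :=
  IsMinus G f ∧ ∀ g, IsMinus G g → (∀ v, g v ≤ f v) → g = f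

/-- The upper minus domination number. -/
noncomputable def GamM (G : SimpleGraph V) : ℤ := sSup {k | ∃ f : V → ℤ, IsMinMinus G f ∧ ∑ v, f v = k}

end Pool.Agent.H80M
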