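import Mathlib
import Pool.Agent.KM.Match

set_option autoImplicit false

/-!
The Tutte-Berge formula (the hard direction), for matchings given as involutions.
-/

namespace Pool.Agent.H80M

open Finset Pool.Agent.KM

variable {V : Type} [Fintype V] [DecidableEq V]

/-- The auxiliary graph with `q` additional universal vertices. -/
def UU (H : SimpleGraph V) (q : ℕ) : SimpleGraph (V ⊕ Fin q) where
  Adj a b := match a, b with
    | Sum.inl x, Sum.inl y => H.Adj x y
    | Sum.inl _, Sum.inr _ => True
    | Sum.inr _, Sum.inl _ => True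
    | Sum.inr i, Sum.inr j => i ≠ j
  symm := ⟨by
    rintro (x | i) (y | j) h
    · exact h.symm
    · trivial
    · trivial
    · exact Ne.symm h⟩
  loopless := ⟨by
    rintro (x | i) h
    · exact H.loopless.irrefl x h
    · exact h rfl⟩

/-- Parity of a finite set with an involution without fixed points. -/
lemma even_of_inv {α : Type} [DecidableEq α] (s : Finset α) (f : α → α)
    (h1 : ∀ x ∈ s, f x ∈ s) (h2 : ∀ x ∈ s, f (f x) = x) (h3 : ∀ x ∈ s, f x ≠ x) : Even #s := by
  have h : (∑ _x ∈ s, (1 : ZMod 2)) = 0 := by
    refine Finset.sum_involution (fun x _ => f x) ?_ ?_ ?_ ?_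
    · intro a _
      decide
    · intro a ha _
      exact h3 a ha
    · intro a ha
      exact h1 a ha
    · intro a ha
      exact h2 a ha
  rw [Finset.sum_const, nsmul_eq_mul, mul_one] at h
  exact (ZMod.natCast_eq_zero_iff_even).mp h

/-- The auxiliary graph has no perfect matching. -/
lemma no_perfect (H : SimpleGraph V) (q : ℕ) (m : V → V)
    (hfix : q < fixN m) (hmax : ∀ m', IsM H m' → fixN m ≤ fixN m') :
    ¬ ∃ M : (UU H q).Subgraph, M.IsPerfectMatching := by
  classical
  rintro ⟨M, hM⟩
  rw [SimpleGraph.Subgraph.isPerfectMatching_iff] at hM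
  choose p hp huniq using hM
  have hadj : ∀ v, (UU H q).Adj v (p v) := fun v => M.adj_sub (hp v)
  have hinv : ∀ v, p (p v) = v := fun v => (huniq (p v) v (hp v).symm).symm
  let m' : V → V := fun x => match p (Sum.inl x) with
    | Sum.inl y => y
    | Sum.inr _ => x
  have hl : ∀ x y, p (Sum.inl x) = Sum.inl y → m' x = y := by
    intro x y h
    simp only [m', h]
  have hr : ∀ x i, p (Sum.inl x) = Sum.inr i → m' x = x := by
    intro x i h
    simp only [m', h]
  have hM' : IsM H m' := by
    constructor
    · intro x
      rcases h : p (Sum.inl x) with y | i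
      · rw [hl x y h]
        apply hl
        rw [← h, hinv]
      · rw [hr x i h, hr x i h]
    · intro x hx
      rcases h : p (Sum.inl x) with y | i
      · rw [hl x y h]
        have := hadj (Sum.inl x)
        rw [h] at this
        exact this
      · exact absurd (hr x i h) hx
  have hfix' : ∀ x, m' x = x ↔ ∃ i, p (Sum.inl x) = Sum.inr i := by
    intro x
    constructor
    · intro hx
      rcases h : p (Sum.inl x) with y | i
      · exfalso
        rw [hl x y h] at hx
        subst hx
        have := hadj (Sum.inl y)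
        rw [h] at this
        exact this.ne rfl
      · exact ⟨i, rfl⟩
    · rintro ⟨i, hi⟩
      exact hr x i hi
  -- the unmatched vertices inject into the new vertices
  let f : {x // m' x = x} → Fin q := fun x => ((hfix' x.1).1 x.2).choose
  have hf : ∀ x, p (Sum.inl x.1) = Sum.inr (f x) := fun x => ((hfix' x.1).1 x.2).choose_spec
  have hfinj : Function.Injective f := by
    intro x y hxy
    have h1 := hf x
    rw [hxy, ← hf y] at h1
    have h2 := congrArg p h1
    rw [hinv, hinv] at h2
    exact Subtype.ext (Sum.inl_injective h2)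
  have hcard : Fintype.card {x // m' x = x} = fixN m' := by
    rw [Fintype.card_subtype]
    rfl
  have hle : fixN m' ≤ q := by
    rw [← hcard]
    simpa using Fintype.card_le_of_injective f hfinj
  have := hmax m' hM'
  omega

/-- **Tutte-Berge**: a set `S` and `#S + fixN m` odd pieces of the rest, if `m` is a maximum
matching with at least two unmatched vertices. -/
theorem tb (H : SimpleGraph V) (m : V → V) (hm : IsM H m)
    (hmax : ∀ m', IsM H m' → fixN m ≤ fixN m') (h2 : 2 ≤ fixN m) :
    ∃ (S : Finset V) (O : Finset (Finset V)),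
      (∀ o ∈ O, Odd #o ∧ ∀ x ∈ o, x ∉ S ∧ ∀ y, H.Adj x y → y ∈ o ∨ y ∈ S) ∧
      (∀ o ∈ O, ∀ o' ∈ O, o ≠ o' → Disjoint o o') ∧ #S + fixN m ≤ #O := by
  classical
  obtain ⟨q, hq⟩ : ∃ q, fixN m = q + 2 := ⟨fixN m - 2, by omega⟩
  have hno := no_perfect H q m (by omega) hmax
  rw [SimpleGraph.tutte] at hno
  push Not at hno
  obtain ⟨u, hu⟩ := hno
  set D : (UU H q).Subgraph := (⊤ : (UU H q).Subgraph).deleteVerts u with hD
  have hDv : ∀ a : V ⊕ Fin q, a ∈ D.verts ↔ a ∉ u := by
    intro a
    simp [hD]
  have hDadj : ∀ (a b : D.verts), D.coe.Adj a b ↔ (UU H q).Adj a.1 b.1 := by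
    intro a b
    have ha := (hDv a.1).mp a.2
    have hb := (hDv b.1).mp b.2
    rw [SimpleGraph.Subgraph.coe_adj]
    simp [hD, ha, hb]
  let cc : D.verts → D.coe.ConnectedComponent := fun a => D.coe.connectedComponentMk a
  have hcc : ∀ a b : D.verts, (UU H q).Adj a.1 b.1 → cc a = cc b := by
    intro a b h
    apply SimpleGraph.ConnectedComponent.sound
    exact SimpleGraph.Adj.reachable ((hDadj a b).mpr h)
  have hviol : u.ncard < D.coe.oddComponents.ncard := hu
  set O : Set D.coe.ConnectedComponent := D.coe.oddComponents with hO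
  have hOfin : O.Finite := Set.toFinite _
  have hufin : u.Finite := Set.toFinite _
  -- cardinality of the deleted set
  set Sv : Finset V := univ.filter (fun v => (Sum.inl v : V ⊕ Fin q) ∈ u) with hSv
  set Si : Finset (Fin q) := univ.filter (fun i => (Sum.inr i : V ⊕ Fin q) ∈ u) with hSi
  have hucard : u.ncard = #Sv + #Si := by
    have h1 : u = ((Sv.map ⟨Sum.inl, Sum.inl_injective⟩ ∪ Si.map ⟨Sum.inr, Sum.inr_injective⟩ :
        Finset (V ⊕ Fin q)) : Set (V ⊕ Fin q)) := by
      ext a
      rcases a with v | i
      · simp [hSv]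
      · simp [hSi]
    conv_lhs => rw [h1]
    rw [Set.ncard_coe_finset, Finset.card_union_of_disjoint, Finset.card_map, Finset.card_map]
    rw [Finset.disjoint_left]
    intro a ha hb
    simp only [mem_map, Function.Embedding.coeFn_mk] at ha hb
    obtain ⟨x, -, rfl⟩ := ha
    obtain ⟨y, -, hy⟩ := hb
    exact absurd hy (by simp)
  -- parity
  have hEven : Even (Fintype.card V + q) := by
    have h1 : Even #(univ.filter (fun x => m x ≠ x)) := by
      apply even_of_inv _ m
      · intro x hx
        simp only [mem_filter, mem_univ, true_and] at hx ⊢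
        intro h
        apply hx
        rw [hm.inv] at h
        exact h.symm
      · intro x _
        exact hm.inv x
      · intro x hx
        simp only [mem_filter, mem_univ, true_and] at hx
        exact hx
    have h2 : fixN m + #(univ.filter (fun x => m x ≠ x)) = Fintype.card V := by
      unfold fixN
      rw [← Finset.card_univ]
      exact Finset.card_filter_add_card_filter_not _
    rw [hq] at h2
    rw [← h2]
    have : q + 2 + #(univ.filter (fun x => m x ≠ x)) + q =
        #(univ.filter (fun x => m x ≠ x)) + 2 * (q + 1) := by ring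
    rw [this]
    exact h1.add (even_two_mul _)
  have hparity : Odd O.ncard ↔ Odd u.ncard := by
    rw [hO, SimpleGraph.odd_ncard_oddComponents]
    have h1 : Nat.card D.verts + u.ncard = Fintype.card V + q := by
      have h2 : D.verts = uᶜ := by
        ext a
        rw [hDv]
        rfl
      have h3 : Nat.card D.verts = (uᶜ : Set (V ⊕ Fin q)).ncard := by rw [h2]; rfl
      rw [h3, add_comm, Set.ncard_add_ncard_compl, Nat.card_eq_fintype_card,
        Fintype.card_sum, Fintype.card_fin]
    have h4 : Even (Nat.card D.verts + u.ncard) := by rw [h1]; exact hEven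
    rw [Nat.even_add] at h4
    rw [← Nat.not_even_iff_odd, ← Nat.not_even_iff_odd, h4]
  have hO2 : u.ncard + 2 ≤ O.ncard := by
    by_contra hcon
    have h1 : O.ncard = u.ncard + 1 := by omega
    rw [h1] at hparity
    rcases Nat.even_or_odd u.ncard with h | h
    · exact (Nat.not_odd_iff_even.mpr h) (hparity.mp h.add_one)
    · have := hparity.mpr h
      exact (Nat.not_odd_iff_even.mpr h.add_one) this
  -- all universal vertices are deleted
  have huniv : ∀ i : Fin q, (Sum.inr i : V ⊕ Fin q) ∈ u := by
    intro i
    by_contra hiu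
    let wi : D.verts := ⟨Sum.inr i, (hDv _).mpr hiu⟩
    have h1 : ∀ a : D.verts, cc a = cc wi := by
      intro a
      by_cases haw : a = wi
      · rw [haw]
      · apply hcc
        rcases h : a.1 with v | j
        · show (UU H q).Adj (Sum.inl v) (Sum.inr i)
          trivial
        · show (UU H q).Adj (Sum.inr j) (Sum.inr i)
          show j ≠ i
          rintro rfl
          exact haw (Subtype.ext h)
    have h2 : O.ncard ≤ 1 := by
      rw [Set.ncard_le_one hOfin]
      intro a _ b _
      induction a using SimpleGraph.ConnectedComponent.ind with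
      | h a =>
        induction b using SimpleGraph.ConnectedComponent.ind with
        | h b => exact (h1 a).trans (h1 b).symm
    omega
  have hSicard : #Si = q := by
    have : Si = univ := by
      ext i
      simp [hSi, huniv i]
    rw [this]
    simp
  -- the odd pieces
  let pc : D.coe.ConnectedComponent → Finset V := fun C =>
    univ.filter (fun v => ∃ hv : (Sum.inl v : V ⊕ Fin q) ∈ D.verts, cc ⟨Sum.inl v, hv⟩ = C)
  have hpc : ∀ C v, v ∈ pc C ↔ ∃ hv : (Sum.inl v : V ⊕ Fin q) ∈ D.verts,
      cc ⟨Sum.inl v, hv⟩ = C := by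
    intro C v
    simp [pc]
  have hpcard : ∀ C, C.supp.ncard = #(pc C) := by
    intro C
    rw [← Set.ncard_coe_finset]
    symm
    refine Set.ncard_congr (fun v hv => ⟨Sum.inl v, ((hpc C v).mp hv).choose⟩) ?_ ?_ ?_
    · intro v hv
      rw [SimpleGraph.ConnectedComponent.mem_supp_iff]
      exact ((hpc C v).mp hv).choose_spec
    · intro v v' hv hv' h
      have := congrArg Subtype.val h
      exact Sum.inl_injective this
    · intro a ha
      rw [SimpleGraph.ConnectedComponent.mem_supp_iff] at ha
      rcases h : a.1 with v | i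
      · have hv : (Sum.inl v : V ⊕ Fin q) ∈ D.verts := by rw [← h]; exact a.2
        refine ⟨v, (hpc C v).mpr ⟨hv, ?_⟩, Subtype.ext h.symm⟩
        rw [← ha]
        congr 1
        exact Subtype.ext h.symm
      · exfalso
        have := (hDv a.1).mp a.2
        rw [h] at this
        exact this (huniv i)
  have hodd : ∀ C ∈ O, Odd #(pc C) := by
    intro C hC
    rw [← hpcard]
    exact hC
  have hdis : ∀ C C', C ≠ C' → Disjoint (pc C) (pc C') := by
    intro C C' hne
    rw [Finset.disjoint_left]
    intro v hv hv'
    obtain ⟨h1, h2⟩ := (hpc C v).mp hv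
    obtain ⟨h3, h4⟩ := (hpc C' v).mp hv'
    exact hne (h2.symm.trans h4)
  refine ⟨Sv, hOfin.toFinset.image pc, ?_, ?_, ?_⟩
  · intro o ho
    obtain ⟨C, hC, rfl⟩ := Finset.mem_image.mp ho
    rw [Set.Finite.mem_toFinset] at hC
    refine ⟨hodd C hC, ?_⟩
    intro x hx
    obtain ⟨h1, h3⟩ := (hpc C x).mp hx
    refine ⟨?_, ?_⟩
    · rw [hSv, mem_filter]
      intro h
      exact (hDv _).mp h1 h.2
    · intro y hxy
      by_cases hy : (Sum.inl y : V ⊕ Fin q) ∈ u
      · right
        rw [hSv, mem_filter]
        exact ⟨mem_univ _, hy⟩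
      · left
        have hy' : (Sum.inl y : V ⊕ Fin q) ∈ D.verts := (hDv _).mpr hy
        refine (hpc C y).mpr ⟨hy', ?_⟩
        rw [← h3]
        exact (hcc ⟨Sum.inl x, h1⟩ ⟨Sum.inl y, hy'⟩ hxy).symm
  · intro o ho o' ho' hne
    obtain ⟨C, hC, rfl⟩ := Finset.mem_image.mp ho
    obtain ⟨C', hC', rfl⟩ := Finset.mem_image.mp ho'
    exact hdis C C' (fun h => hne (by rw [h]))
  · rw [Finset.card_image_of_injOn]
    · rw [← Set.ncard_eq_toFinset_card O hOfin]
      omega
    · intro C hC C' hC' h
      by_contra hne
      have h1 := hdis C C' hne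
      have h3 : pc C = pc C' := h
      rw [← h3] at h1
      rw [Finset.mem_coe, Set.Finite.mem_toFinset] at hC
      have h4 := hodd C hC
      rw [disjoint_self] at h1
      have h5 : pc C = ∅ := h1
      rw [h5] at h4
      simp at h4

end Pool.Agent.H80M
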