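import Mathlib
import Pool.Agent.H80M.TB

set_option autoImplicit false

/-!
Cubic graphs partitioned into triangles: a minimal dominating set has at most `3 ν` elements,
where `ν` is the size of a maximum matching of the contracted graph.
-/

namespace Pool.Agent.H80M

open Finset Pool.Agent.KM

/-- A graph on `V` given by a partition into triangles (the fibres of `cl`) and a perfect
matching `nb` of edges between different triangles. -/
structure TriSys (V τ : Type) [Fintype V] [DecidableEq V] [Fintype τ] [DecidableEq τ] where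
  cl : V → τ
  nb : V → V
  card_cl : ∀ A, #(univ.filter (fun v => cl v = A)) = 3
  inv : ∀ v, nb (nb v) = v
  ne : ∀ v, cl (nb v) ≠ cl v

variable {V τ : Type} [Fintype V] [DecidableEq V] [Fintype τ] [DecidableEq τ]

namespace TriSys

variable (T : TriSys V τ)

/-- The contracted graph. -/
def H : SimpleGraph τ where
  Adj A B := A ≠ B ∧ ∃ v, T.cl v = A ∧ T.cl (T.nb v) = B
  symm := ⟨by
    rintro A B ⟨h, v, h1, h2⟩
    exact ⟨h.symm, T.nb v, h2, by rw [T.inv]; exact h1⟩⟩
  loopless := ⟨fun A h => h.1 rfl⟩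

/-- `u` is in the closed neighbourhood of `v`. -/
def Nb (v u : V) : Prop := T.cl u = T.cl v ∨ u = T.nb v

instance (v u : V) : Decidable (T.Nb v u) := by unfold Nb; infer_instance

lemma Nb.symm {T : TriSys V τ} {v u : V} (h : T.Nb v u) : T.Nb u v := by
  rcases h with h | h
  · exact Or.inl h.symm
  · exact Or.inr (by rw [h, T.inv])

/-- minimal domination, with private neighbours -/
structure MD (D : Finset V) : Prop where
  dom : ∀ v, ∃ u ∈ D, T.Nb v u
  priv : ∀ v ∈ D, ∃ w, T.Nb w v ∧ ∀ u ∈ D, T.Nb w u → u = v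

variable (D : Finset V)

/-- number of elements of `D` in the triangle `A` -/
def dd (A : τ) : ℕ := #(D.filter (fun v => T.cl v = A))

/-- the charge of an end -/
def g (v : V) : ℤ :=
  if T.dd D (T.cl v) = 0 then -1 else if v ∈ D ∧ T.dd D (T.cl (T.nb v)) = 0 then 1 else 0

/-- the defect of a triangle -/
def c (A : τ) : ℤ := 3 - 2 * (T.dd D A : ℤ) + ∑ v ∈ univ.filter (fun v => T.cl v = A), T.g D v

lemma dd_le (A : τ) : T.dd D A ≤ 3 := by
  rw [← T.card_cl A]
  apply Finset.card_le_card
  intro v hv
  rw [mem_filter] at hv ⊢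
  exact ⟨mem_univ _, hv.2⟩

lemma dd_pos_of_mem {v : V} (hv : v ∈ D) : T.dd D (T.cl v) ≠ 0 := by
  unfold dd
  rw [Finset.card_ne_zero]
  exact ⟨v, mem_filter.2 ⟨hv, rfl⟩⟩

lemma notMem_of_dd {v : V} (h : T.dd D (T.cl v) = 0) : v ∉ D :=
  fun hv => T.dd_pos_of_mem D hv h

variable {D}

/-- the partner of an end in an empty triangle is in `D` -/
lemma MD.nb_mem {T : TriSys V τ} (hD : T.MD D) {v : V} (h : T.dd D (T.cl v) = 0) :
    T.nb v ∈ D := by
  obtain ⟨u, hu, huv⟩ := hD.dom v
  rcases huv with h1 | h1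
  · exact absurd (h1 ▸ T.dd_pos_of_mem D hu) (by simp [h])
  · rw [← h1]; exact hu

/-- an end in `D` in a triangle with at least two elements of `D` has its partner in an empty
triangle -/
lemma MD.dd_nb {T : TriSys V τ} (hD : T.MD D) {v : V} (hv : v ∈ D)
    (h : 2 ≤ T.dd D (T.cl v)) : T.dd D (T.cl (T.nb v)) = 0 := by
  obtain ⟨w, hw1, hw2⟩ := hD.priv v hv
  have h2 : ∃ u ∈ D, T.cl u = T.cl v ∧ u ≠ v := by
    unfold dd at h
    obtain ⟨a, ha, hav⟩ := Finset.exists_mem_ne (by omega : 1 < #(D.filter (fun x => T.cl x = T.cl v))) v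
    rw [mem_filter] at ha
    exact ⟨a, ha.1, ha.2, hav⟩
  obtain ⟨u, hu, huv, hne⟩ := h2
  have hwcl : T.cl w ≠ T.cl v := by
    intro hc
    exact hne (hw2 u hu (Or.inl (huv.trans hc.symm)))
  have hwv : v = T.nb w := by
    rcases hw1 with h1 | h1
    · exact absurd h1.symm hwcl
    · exact h1
  have hwnb : w = T.nb v := by rw [hwv, T.inv]
  unfold dd
  rw [Finset.card_eq_zero, Finset.filter_eq_empty_iff]
  intro z hz hcz
  have := hw2 z hz (Or.inl (by rw [hcz, hwnb]))
  rw [this] at hcz
  exact T.ne v hcz.symm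

lemma MD.g_nb {T : TriSys V τ} (hD : T.MD D) (v : V) : T.g D (T.nb v) = - T.g D v := by
  unfold g
  rw [T.inv]
  by_cases h1 : T.dd D (T.cl v) = 0
  · have h2 := hD.nb_mem h1
    have h3 := T.dd_pos_of_mem D h2
    rw [if_pos h1, if_neg h3, if_pos ⟨h2, h1⟩]
    rfl
  · rw [if_neg h1]
    by_cases h2 : T.dd D (T.cl (T.nb v)) = 0
    · have h3 := hD.nb_mem h2
      rw [T.inv] at h3
      rw [if_pos h2, if_pos ⟨h3, h2⟩]
    · rw [if_neg h2, if_neg (fun h => h1 h.2), if_neg (fun h => h2 h.2)]
      rfl

/-- the sum of the charges of a triangle -/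
lemma MD.sum_g {T : TriSys V τ} (hD : T.MD D) (A : τ) :
    (T.dd D A = 0 ∧ ∀ v, T.cl v = A → T.g D v = -1) ∨
    (T.dd D A = 3 ∧ ∀ v, T.cl v = A → T.g D v = 1) ∨
    (T.dd D A = 2 ∧ ∑ v ∈ univ.filter (fun v => T.cl v = A), T.g D v = 2 ∧
      ∀ v, T.cl v = A → (v ∈ D ∧ T.g D v = 1) ∨ (v ∉ D ∧ T.g D v = 0)) ∨
    (T.dd D A = 1 ∧ 0 ≤ ∑ v ∈ univ.filter (fun v => T.cl v = A), T.g D v ∧
      ∀ v, T.cl v = A → v ∈ D ∨ T.g D v = 0) := by
  have h3 := T.dd_le D A
  have hcases : T.dd D A = 0 ∨ T.dd D A = 3 ∨ T.dd D A = 2 ∨ T.dd D A = 1 := by omega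
  rcases hcases with h | h | h | h
  · left
    refine ⟨h, fun v hv => ?_⟩
    unfold g
    rw [if_pos (by rw [hv]; exact h)]
  · right; left
    refine ⟨h, fun v hv => ?_⟩
    have hall : D.filter (fun v => T.cl v = A) = univ.filter (fun v => T.cl v = A) := by
      apply Finset.eq_of_subset_of_card_le
      · intro x hx
        rw [mem_filter] at hx ⊢
        exact ⟨mem_univ _, hx.2⟩
      · rw [T.card_cl]
        exact h.ge
    have hvD : v ∈ D := by
      have : v ∈ D.filter (fun v => T.cl v = A) := by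
        rw [hall]; exact mem_filter.2 ⟨mem_univ _, hv⟩
      exact (mem_filter.1 this).1
    unfold g
    rw [if_neg (by rw [hv, h]; norm_num), if_pos]
    exact ⟨hvD, hD.dd_nb hvD (by rw [hv, h]; norm_num)⟩
  · right; right; left
    have hg : ∀ v, T.cl v = A → T.g D v = if v ∈ D then 1 else 0 := by
      intro v hv
      unfold g
      rw [if_neg (by rw [hv, h]; norm_num)]
      by_cases hvD : v ∈ D
      · rw [if_pos hvD, if_pos]
        exact ⟨hvD, hD.dd_nb hvD (by rw [hv, h])⟩
      · rw [if_neg hvD, if_neg (fun hh => hvD hh.1)]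
    refine ⟨h, ?_, ?_⟩
    · rw [Finset.sum_congr rfl (fun v hv => hg v (mem_filter.1 hv).2), Finset.sum_boole,
        Finset.filter_filter]
      have : univ.filter (fun v => T.cl v = A ∧ v ∈ D) = D.filter (fun v => T.cl v = A) := by
        ext v
        simp only [mem_filter, mem_univ, true_and]
        tauto
      rw [this]
      have h' : #(D.filter (fun v => T.cl v = A)) = 2 := h
      rw [h']
      norm_num
    · intro v hv
      rw [hg v hv]
      by_cases hvD : v ∈ D
      · exact Or.inl ⟨hvD, if_pos hvD⟩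
      · exact Or.inr ⟨hvD, if_neg hvD⟩
  · right; right; right
    refine ⟨h, ?_, ?_⟩
    · apply Finset.sum_nonneg
      intro v hv
      have hv' := (mem_filter.1 hv).2
      unfold g
      rw [if_neg (by rw [hv', h]; norm_num)]
      split_ifs <;> norm_num
    · intro v hv
      by_cases hvD : v ∈ D
      · exact Or.inl hvD
      · right
        unfold g
        rw [if_neg (by rw [hv, h]; norm_num), if_neg (fun hh => hvD hh.1)]

lemma MD.c_nonneg {T : TriSys V τ} (hD : T.MD D) (A : τ) : 0 ≤ T.c D A := by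
  unfold c
  rcases hD.sum_g A with ⟨h, h1⟩ | ⟨h, h1⟩ | ⟨h, h1, h2⟩ | ⟨h, h1, h2⟩
  · rw [h, Finset.sum_congr rfl (fun v hv => h1 v (mem_filter.1 hv).2), Finset.sum_const,
      T.card_cl]
    norm_num
  · rw [h, Finset.sum_congr rfl (fun v hv => h1 v (mem_filter.1 hv).2), Finset.sum_const,
      T.card_cl]
    norm_num
  · rw [h, h1]; norm_num
  · rw [h]; push_cast; linarith

/-- a triangle with an uncharged end has positive defect -/
lemma MD.c_pos {T : TriSys V τ} (hD : T.MD D) {v : V} (hv : T.g D v = 0) :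
    1 ≤ T.c D (T.cl v) := by
  unfold c
  rcases hD.sum_g (T.cl v) with ⟨h, h1⟩ | ⟨h, h1⟩ | ⟨h, h1, h2⟩ | ⟨h, h1, h2⟩
  · rw [h1 v rfl] at hv; norm_num at hv
  · rw [h1 v rfl] at hv; norm_num at hv
  · rw [h, h1]; norm_num
  · rw [h]; push_cast; linarith

/-- the ends in the triangles of `O` -/
def ends (O : Finset τ) : Finset V := univ.filter (fun v => T.cl v ∈ O)

/-- the ends in `O` whose partner is not in `O` -/
def bd (O : Finset τ) : Finset V := univ.filter (fun v => T.cl v ∈ O ∧ T.cl (T.nb v) ∉ O)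

lemma sum_ends {M : Type} [AddCommMonoid M] (O : Finset τ) (f : V → M) :
    ∑ v ∈ T.ends O, f v = ∑ A ∈ O, ∑ v ∈ univ.filter (fun v => T.cl v = A), f v := by
  rw [← Finset.sum_fiberwise_of_maps_to (s := T.ends O) (t := O) (g := T.cl)
    (fun v hv => (mem_filter.1 hv).2)]
  refine Finset.sum_congr rfl (fun A hA => Finset.sum_congr ?_ (fun _ _ => rfl))
  ext v
  simp only [ends, mem_filter, mem_univ, true_and]
  constructor
  · rintro ⟨_, h⟩; exact h
  · intro h; exact ⟨h ▸ hA, h⟩

lemma card_ends (O : Finset τ) : #(T.ends O) = 3 * #O := by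
  have := T.sum_ends O (fun _ => (1 : ℕ))
  rw [Finset.sum_const, smul_eq_mul, mul_one] at this
  rw [this]
  simp only [Finset.sum_const, smul_eq_mul, mul_one, T.card_cl]
  ring

lemma bd_subset (O : Finset τ) : T.bd O ⊆ T.ends O := by
  intro v hv
  rw [bd, mem_filter] at hv
  exact mem_filter.2 ⟨mem_univ _, hv.2.1⟩

/-- internal ends cancel -/
lemma MD.sum_g_ends {T : TriSys V τ} (hD : T.MD D) (O : Finset τ) :
    ∑ v ∈ T.ends O, T.g D v = ∑ v ∈ T.bd O, T.g D v := by
  rw [← Finset.sum_sdiff (T.bd_subset O)]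
  have : ∑ v ∈ T.ends O \ T.bd O, T.g D v = 0 := by
    refine Finset.sum_involution (fun v _ => T.nb v) ?_ ?_ ?_ ?_
    · intro v _
      rw [hD.g_nb]; ring
    · intro v hv _ h
      exact T.ne v (by rw [h])
    · intro v hv
      simp only [ends, bd, mem_sdiff, mem_filter, mem_univ, true_and] at hv ⊢
      rw [T.inv]
      tauto
    · intro v _
      exact T.inv v
  rw [this, zero_add]

lemma odd_bd {O : Finset τ} (hO : Odd #O) : Odd #(T.bd O) := by
  have h1 : Even #(T.ends O \ T.bd O) := by
    apply even_of_inv _ T.nb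
    · intro v hv
      simp only [ends, bd, mem_sdiff, mem_filter, mem_univ, true_and] at hv ⊢
      rw [T.inv]
      tauto
    · intro v _; exact T.inv v
    · intro v _ h
      exact T.ne v (by rw [h])
  have h2 := Finset.card_sdiff_add_card_eq_card (T.bd_subset O)
  rw [T.card_ends] at h2
  have h3 : Odd (3 * #O) := (by decide : Odd 3).mul hO
  rw [← h2, Nat.odd_add] at h3
  exact Nat.not_even_iff_odd.1 (fun h => (Nat.not_odd_iff_even.2 h1) (h3.2 h))

/-- the defect of an odd set of triangles plus the number of leaving ends is at least three -/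
lemma MD.three_le {T : TriSys V τ} (hD : T.MD D) {O : Finset τ} (hO : Odd #O) :
    3 ≤ ∑ A ∈ O, T.c D A + #(T.bd O) := by
  have hodd := T.odd_bd hO
  have hc0 : 0 ≤ ∑ A ∈ O, T.c D A := Finset.sum_nonneg (fun A _ => hD.c_nonneg A)
  by_cases h3 : 3 ≤ #(T.bd O)
  · have : (3 : ℤ) ≤ #(T.bd O) := by exact_mod_cast h3
    linarith
  have h1 : #(T.bd O) = 1 := by
    obtain ⟨k, hk⟩ := hodd
    omega
  obtain ⟨t, ht⟩ := Finset.card_eq_one.1 h1
  have htO : T.cl t ∈ O := by
    have : t ∈ T.bd O := by rw [ht]; exact mem_singleton_self t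
    exact (mem_filter.1 this).2.1
  have hin : ∀ v, T.cl v ∈ O → v ≠ t → T.cl (T.nb v) ∈ O := by
    intro v hv hvt
    by_contra hcon
    have : v ∈ T.bd O := mem_filter.2 ⟨mem_univ _, hv, hcon⟩
    rw [ht, mem_singleton] at this
    exact hvt this
  rw [h1]
  -- an uncharged end different from `t`
  have hex : ∃ v, T.cl v ∈ O ∧ v ≠ t ∧ T.g D v = 0 := by
    by_contra hcon
    push Not at hcon
    have hsum : ∑ A ∈ O, ∑ v ∈ univ.filter (fun v => T.cl v = A), T.g D v = T.g D t := by
      rw [← T.sum_ends, hD.sum_g_ends, ht, Finset.sum_singleton]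
    -- triangles not containing `t` have sum divisible by three
    have hdiv : ∀ A ∈ O, A ≠ T.cl t →
        (3 : ℤ) ∣ ∑ v ∈ univ.filter (fun v => T.cl v = A), T.g D v := by
      intro A hA hAt
      have hvt : ∀ v, T.cl v = A → T.g D v ≠ 0 := by
        intro v hv
        exact hcon v (hv ▸ hA) (fun h => hAt (by rw [← hv, h]))
      rcases hD.sum_g A with ⟨h, h1⟩ | ⟨h, h1⟩ | ⟨h, h1, h2⟩ | ⟨h, h1, h2⟩
      · rw [Finset.sum_congr rfl (fun v hv => h1 v (mem_filter.1 hv).2), Finset.sum_const,
          T.card_cl]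
        norm_num
      · rw [Finset.sum_congr rfl (fun v hv => h1 v (mem_filter.1 hv).2), Finset.sum_const,
          T.card_cl]
        norm_num
      · exfalso
        have hall : ∀ v, T.cl v = A → v ∈ D := by
          intro v hv
          rcases h2 v hv with h4 | h4
          · exact h4.1
          · exact absurd h4.2 (hvt v hv)
        have : univ.filter (fun v => T.cl v = A) ⊆ D.filter (fun v => T.cl v = A) := by
          intro v hv
          have := (mem_filter.1 hv).2
          exact mem_filter.2 ⟨hall v this, this⟩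
        have h5 := Finset.card_le_card this
        rw [T.card_cl] at h5
        have h6 : #(D.filter (fun v => T.cl v = A)) = 2 := h
        omega
      · exfalso
        have hall : ∀ v, T.cl v = A → v ∈ D := by
          intro v hv
          rcases h2 v hv with h4 | h4
          · exact h4
          · exact absurd h4 (hvt v hv)
        have : univ.filter (fun v => T.cl v = A) ⊆ D.filter (fun v => T.cl v = A) := by
          intro v hv
          have := (mem_filter.1 hv).2
          exact mem_filter.2 ⟨hall v this, this⟩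
        have h5 := Finset.card_le_card this
        rw [T.card_cl] at h5
        have h6 : #(D.filter (fun v => T.cl v = A)) = 1 := h
        omega
    rw [← Finset.add_sum_erase O _ htO] at hsum
    have hrest : (3 : ℤ) ∣ ∑ A ∈ O.erase (T.cl t),
        ∑ v ∈ univ.filter (fun v => T.cl v = A), T.g D v := by
      apply Finset.dvd_sum
      intro A hA
      rw [mem_erase] at hA
      exact hdiv A hA.2 hA.1
    obtain ⟨k, hk⟩ := hrest
    rw [hk] at hsum
    have hvt : ∀ v, T.cl v = T.cl t → v ≠ t → T.g D v ≠ 0 := by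
      intro v hv hne
      exact hcon v (hv ▸ htO) hne
    rcases hD.sum_g (T.cl t) with ⟨h, h1⟩ | ⟨h, h1⟩ | ⟨h, h1, h2⟩ | ⟨h, h1, h2⟩
    · rw [Finset.sum_congr rfl (fun v hv => h1 v (mem_filter.1 hv).2), Finset.sum_const,
        T.card_cl, h1 t rfl] at hsum
      simp only [nsmul_eq_mul] at hsum
      push_cast at hsum
      omega
    · rw [Finset.sum_congr rfl (fun v hv => h1 v (mem_filter.1 hv).2), Finset.sum_const,
        T.card_cl, h1 t rfl] at hsum
      simp only [nsmul_eq_mul] at hsum
      push_cast at hsum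
      omega
    · rw [h1] at hsum
      rcases h2 t rfl with h4 | h4
      · -- all ends are in `D`
        have hall : ∀ v, T.cl v = T.cl t → v ∈ D := by
          intro v hv
          by_cases hvt' : v = t
          · rw [hvt']; exact h4.1
          · rcases h2 v hv with h5 | h5
            · exact h5.1
            · exact absurd h5.2 (hvt v hv hvt')
        have : univ.filter (fun v => T.cl v = T.cl t) ⊆ D.filter (fun v => T.cl v = T.cl t) := by
          intro v hv
          have := (mem_filter.1 hv).2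
          exact mem_filter.2 ⟨hall v this, this⟩
        have h5 := Finset.card_le_card this
        rw [T.card_cl] at h5
        have h6 : #(D.filter (fun v => T.cl v = T.cl t)) = 2 := h
        omega
      · rw [h4.2] at hsum
        omega
    · -- at least two ends different from `t`, both in `D`
      have : (univ.filter (fun v => T.cl v = T.cl t)).erase t ⊆
          D.filter (fun v => T.cl v = T.cl t) := by
        intro v hv
        rw [mem_erase, mem_filter] at hv
        rcases h2 v hv.2.2 with h4 | h4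
        · exact mem_filter.2 ⟨h4, hv.2.2⟩
        · exact absurd h4 (hvt v hv.2.2 hv.1)
      have h5 := Finset.card_le_card this
      have ht1 : t ∈ univ.filter (fun v => T.cl v = T.cl t) := mem_filter.2 ⟨mem_univ _, rfl⟩
      rw [Finset.card_erase_of_mem ht1, T.card_cl] at h5
      have h6 : #(D.filter (fun v => T.cl v = T.cl t)) = 1 := h
      omega
  obtain ⟨v, hvO, hvt, hv0⟩ := hex
  have hnbO := hin v hvO hvt
  have hc1 := hD.c_pos hv0
  have hc2 : 1 ≤ T.c D (T.cl (T.nb v)) := hD.c_pos (by rw [hD.g_nb, hv0]; rfl)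
  have hne := T.ne v
  have h2 : T.c D (T.cl (T.nb v)) + T.c D (T.cl v) ≤ ∑ A ∈ O, T.c D A := by
    have hpair : ({T.cl (T.nb v), T.cl v} : Finset τ) ⊆ O := by
      intro A hA
      rw [mem_insert, mem_singleton] at hA
      rcases hA with rfl | rfl
      · exact hnbO
      · exact hvO
    rw [← Finset.sum_pair hne]
    exact Finset.sum_le_sum_of_subset_of_nonneg hpair (fun A _ _ => hD.c_nonneg A)
  push_cast
  linarith

/-- the total defect -/
lemma MD.sum_c {T : TriSys V τ} (hD : T.MD D) :
    ∑ A, T.c D A = 3 * (Fintype.card τ : ℤ) - 2 * #D := by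
  unfold c
  rw [Finset.sum_add_distrib, Finset.sum_sub_distrib, ← Finset.mul_sum]
  have h1 : ∑ A, ∑ v ∈ univ.filter (fun v => T.cl v = A), T.g D v = 0 := by
    rw [← T.sum_ends univ, hD.sum_g_ends]
    have : T.bd univ = ∅ := by
      unfold bd
      rw [Finset.filter_eq_empty_iff]
      intro v _ h
      exact h.2 (mem_univ _)
    rw [this, Finset.sum_empty]
  have h2 : ∑ A, (T.dd D A : ℤ) = #D := by
    unfold dd
    rw [← Nat.cast_sum]
    rw [← Finset.card_eq_sum_card_fiberwise (f := T.cl) (s := D) (t := univ)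
      (fun _ _ => mem_univ _)]
  rw [h1, h2, Finset.sum_const, Finset.card_univ]
  simp only [nsmul_eq_mul]
  ring

/-- **Main inequality.** -/
theorem MD.main {T : TriSys V τ} (hD : T.MD D) (m : τ → τ) (hm : IsM T.H m)
    (hmax : ∀ m', IsM T.H m' → fixN m ≤ fixN m') :
    2 * (#D : ℤ) ≤ 3 * ((Fintype.card τ : ℤ) - fixN m) := by
  have hsum := hD.sum_c
  have hcn := fun A => hD.c_nonneg A
  rcases Nat.lt_or_ge (fixN m) 2 with hlt | hge
  · -- the number of triangles is even
    have h0 : fixN m = 0 := by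
      by_contra hne
      have h1 : fixN m = 1 := by omega
      have h2 : fixN m + #(univ.filter (fun x => m x ≠ x)) = Fintype.card τ := by
        unfold fixN
        rw [← Finset.card_univ]
        exact Finset.card_filter_add_card_filter_not _
      have h3 : Even #(univ.filter (fun x => m x ≠ x)) := by
        apply even_of_inv _ m
        · intro x hx
          simp only [mem_filter, mem_univ, true_and] at hx ⊢
          intro h
          apply hx
          rw [hm.inv] at h
          exact h.symm
        · intro x _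
          exact hm.inv x
        · intro x hx
          simp only [mem_filter, mem_univ, true_and] at hx
          exact hx
      have h4 : Odd #(univ : Finset τ) := by
        rw [Finset.card_univ, ← h2, h1, add_comm]
        exact h3.add_one
      have h5 := T.odd_bd h4
      have h6 : T.bd univ = ∅ := by
        unfold bd
        rw [Finset.filter_eq_empty_iff]
        intro v _ h
        exact h.2 (mem_univ _)
      rw [h6] at h5
      simp at h5
    have h1 : 0 ≤ ∑ A, T.c D A := Finset.sum_nonneg (fun A _ => hcn A)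
    rw [h0]
    push_cast
    linarith
  · obtain ⟨S, O, hO, hdis, hcard⟩ := tb T.H m hm hmax hge
    -- sum over the odd pieces
    have h1 : 3 * (#O : ℤ) ≤ ∑ o ∈ O, (∑ A ∈ o, T.c D A + (#(T.bd o) : ℤ)) := by
      have : ∑ o ∈ O, (3 : ℤ) ≤ ∑ o ∈ O, (∑ A ∈ o, T.c D A + (#(T.bd o) : ℤ)) :=
        Finset.sum_le_sum (fun o ho => hD.three_le (hO o ho).1)
      rw [Finset.sum_const, nsmul_eq_mul] at this
      linarith
    rw [Finset.sum_add_distrib] at h1
    have h2 : ∑ o ∈ O, ∑ A ∈ o, T.c D A ≤ ∑ A, T.c D A := by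
      rw [← Finset.sum_biUnion (fun o ho o' ho' hne => hdis o ho o' ho' hne)]
      exact Finset.sum_le_sum_of_subset_of_nonneg (Finset.subset_univ _) (fun A _ _ => hcn A)
    have h3 : ∑ o ∈ O, #(T.bd o) ≤ 3 * #S := by
      rw [← T.card_ends S, ← Finset.card_biUnion]
      · apply Finset.card_le_card_of_injOn T.nb
        · intro v hv
          rw [Finset.mem_coe, mem_biUnion] at hv
          obtain ⟨o, ho, hvo⟩ := hv
          rw [bd, mem_filter] at hvo
          have h4 := ((hO o ho).2 (T.cl v) hvo.2.1).2 (T.cl (T.nb v))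
            ⟨(T.ne v).symm, v, rfl, rfl⟩
          rw [Finset.mem_coe, ends, mem_filter]
          exact ⟨mem_univ _, h4.resolve_left hvo.2.2⟩
        · intro v _ w _ h
          rw [← T.inv v, h, T.inv]
      · intro o ho o' ho' hne
        show Disjoint (T.bd o) (T.bd o')
        rw [Finset.disjoint_left]
        intro v hv hv'
        rw [bd, mem_filter] at hv hv'
        exact (Finset.disjoint_left.1 (hdis o ho o' ho' hne)) hv.2.1 hv'.2.1
    have h4 : ((∑ o ∈ O, #(T.bd o) : ℕ) : ℤ) ≤ ((3 * #S : ℕ) : ℤ) := by exact_mod_cast h3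
    push_cast at h4
    have h5 : ((#S + fixN m : ℕ) : ℤ) ≤ (#O : ℤ) := by exact_mod_cast hcard
    push_cast at h5
    linarith

end TriSys

end Pool.Agent.H80M
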