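import Mathlib
import Pool.Agent.H80M.Tri

set_option autoImplicit false

/-!
The minus dominating function of a maximum matching of the contracted graph.
-/

namespace Pool.Agent.H80M

open Finset Pool.Agent.KM

variable {V τ : Type} [Fintype V] [DecidableEq V] [Fintype τ] [DecidableEq τ]

namespace TriSys

variable (T : TriSys V τ)

/-- sum over the closed neighbourhood -/
def cs (f : V → ℤ) (v : V) : ℤ := ∑ u ∈ univ.filter (fun u => T.Nb v u), f u

lemma cs_eq (f : V → ℤ) (v : V) :
    T.cs f v = ∑ u ∈ univ.filter (fun u => T.cl u = T.cl v), f u + f (T.nb v) := by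
  unfold cs
  have h : univ.filter (fun u => T.Nb v u) =
      insert (T.nb v) (univ.filter (fun u => T.cl u = T.cl v)) := by
    ext u
    rw [mem_insert, mem_filter, mem_filter]
    constructor
    · rintro ⟨_, h | h⟩
      · exact Or.inr ⟨mem_univ _, h⟩
      · exact Or.inl h
    · rintro (h | ⟨_, h⟩)
      · exact ⟨mem_univ _, Or.inr h⟩
      · exact ⟨mem_univ _, Or.inl h⟩
  rw [h, Finset.sum_insert, add_comm]
  rw [mem_filter]
  exact fun hh => T.ne v hh.2

lemma sum_cl (f : V → ℤ) : ∑ v, f v = ∑ A, ∑ v ∈ univ.filter (fun v => T.cl v = A), f v :=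
  (Finset.sum_fiberwise_of_maps_to (s := univ) (t := univ) (g := T.cl)
    (fun _ _ => mem_univ _) f).symm

theorem exists_f : ∃ f : V → ℤ, (∀ v, f v = -1 ∨ f v = 0 ∨ f v = 1) ∧ (∀ v, 1 ≤ T.cs f v) ∧
    (∀ v, ∃ u, T.Nb v u ∧ T.cs f u = 1) ∧ ∀ D, T.MD D → (#D : ℤ) ≤ ∑ v, f v := by
  classical
  -- a maximum matching
  obtain ⟨m, hm, hmax⟩ : ∃ m, IsM T.H m ∧ ∀ m', IsM T.H m' → fixN m ≤ fixN m' := by
    obtain ⟨m, hm, hmin⟩ := Finset.exists_min_image (univ.filter (fun m => IsM T.H m)) fixN
      ⟨id, mem_filter.2 ⟨mem_univ _, fun x => rfl, fun x hx => absurd rfl hx⟩⟩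
    exact ⟨m, (mem_filter.1 hm).2, fun m' hm' => hmin m' (mem_filter.2 ⟨mem_univ _, hm'⟩)⟩
  -- the chosen ends
  have hex : ∀ A, ∃ c : V, m A ≠ A → T.cl c = A ∧ T.cl (T.nb c) = m A := by
    intro A
    by_cases h : m A = A
    · have h3 := T.card_cl A
      obtain ⟨v, _⟩ := Finset.card_pos.1 (by rw [h3]; norm_num : 0 < _)
      exact ⟨v, fun h' => absurd h h'⟩
    · obtain ⟨_, v, h1, h2⟩ := hm.adj A h
      exact ⟨v, fun _ => ⟨h1, h2⟩⟩
  choose c hc using hex
  let ι : τ → ℕ := fun A => (Fintype.equivFin τ A : ℕ)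
  have hι : ∀ A B, ι A = ι B → A = B := by
    intro A B h
    exact (Fintype.equivFin τ).injective (Fin.ext h)
  let e : τ → V := fun A => if ι A < ι (m A) then c A else T.nb (c (m A))
  have hmm : ∀ A, m A ≠ A → m (m A) ≠ m A := by
    intro A h h'
    rw [hm.inv] at h'
    exact h h'.symm
  have he_small : ∀ A, ι A < ι (m A) → e A = c A := fun A h => if_pos h
  have he_large : ∀ A, ¬ ι A < ι (m A) → e A = T.nb (c (m A)) := fun A h => if_neg h
  have hlt : ∀ A, m A ≠ A → ¬ ι A < ι (m A) → ι (m A) < ι (m (m A)) := by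
    intro A h h'
    rw [hm.inv]
    rcases Nat.lt_trichotomy (ι (m A)) (ι A) with h1 | h1 | h1
    · exact h1
    · exact absurd (hι _ _ h1) h
    · exact absurd h1 h'
  have he_cl : ∀ A, m A ≠ A → T.cl (e A) = A := by
    intro A h
    by_cases h1 : ι A < ι (m A)
    · rw [he_small A h1]
      exact (hc A h).1
    · rw [he_large A h1, (hc (m A) (hmm A h)).2, hm.inv]
  have he_nb : ∀ A, m A ≠ A → T.nb (e A) = e (m A) := by
    intro A h
    by_cases h1 : ι A < ι (m A)
    · have h2 : ¬ ι (m A) < ι (m (m A)) := by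
        rw [hm.inv]; omega
      rw [he_small A h1, he_large (m A) h2, hm.inv]
    · have h2 := hlt A h h1
      rw [he_large A h1, he_small (m A) h2, T.inv]
  -- the function
  let val : τ → ℤ := fun A => if ι A < ι (m A) then 0 else -1
  let f : V → ℤ := fun v => if m (T.cl v) = T.cl v then 0 else
    if v = e (T.cl v) then val (T.cl v) else 1
  have hf0 : ∀ v, m (T.cl v) = T.cl v → f v = 0 := fun v h => if_pos h
  have hfe : ∀ A, m A ≠ A → f (e A) = val A := by
    intro A h
    have h1 := he_cl A h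
    have h2 : f (e A) = if m (T.cl (e A)) = T.cl (e A) then 0 else
      if e A = e (T.cl (e A)) then val (T.cl (e A)) else 1 := rfl
    rw [h2, h1, if_neg h, if_pos rfl]
  have hf1 : ∀ v, m (T.cl v) ≠ T.cl v → v ≠ e (T.cl v) → f v = 1 := by
    intro v h h'
    have h2 : f v = if m (T.cl v) = T.cl v then 0 else
      if v = e (T.cl v) then val (T.cl v) else 1 := rfl
    rw [h2, if_neg h, if_neg h']
  have hval : ∀ A, val A = 0 ∨ val A = -1 := by
    intro A
    have : val A = if ι A < ι (m A) then 0 else -1 := rfl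
    rw [this]
    split_ifs
    · exact Or.inl rfl
    · exact Or.inr rfl
  have hvalm : ∀ A, m A ≠ A → val A + val (m A) = -1 := by
    intro A h
    have e1 : val A = if ι A < ι (m A) then 0 else -1 := rfl
    have e2 : val (m A) = if ι (m A) < ι (m (m A)) then 0 else -1 := rfl
    rw [e1, e2]
    by_cases h1 : ι A < ι (m A)
    · have h2 : ¬ ι (m A) < ι (m (m A)) := by
        rw [hm.inv]; omega
      rw [if_pos h1, if_neg h2]; norm_num
    · have h2 := hlt A h h1
      rw [if_neg h1, if_pos h2]; norm_num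
  -- triangle sums
  have hσ0 : ∀ A, m A = A → ∑ u ∈ univ.filter (fun u => T.cl u = A), f u = 0 := by
    intro A h
    refine Finset.sum_eq_zero fun u hu => ?_
    have h1 := (mem_filter.1 hu).2
    exact hf0 u (by rw [h1]; exact h)
  have hσ : ∀ A, m A ≠ A → ∑ u ∈ univ.filter (fun u => T.cl u = A), f u = 2 + val A := by
    intro A h
    have hmem : e A ∈ univ.filter (fun u => T.cl u = A) :=
      mem_filter.2 ⟨mem_univ _, he_cl A h⟩
    rw [← Finset.sum_erase_add _ _ hmem, hfe A h]
    have h1 : ∀ u ∈ (univ.filter (fun u => T.cl u = A)).erase (e A), f u = 1 := by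
      intro u hu
      rw [mem_erase, mem_filter] at hu
      exact hf1 u (by rw [hu.2.2]; exact h) (by rw [hu.2.2]; exact hu.1)
    rw [Finset.sum_congr rfl h1, Finset.sum_const, Finset.card_erase_of_mem hmem, T.card_cl]
    norm_num
  -- closed neighbourhoods
  have hcs_e : ∀ A, m A ≠ A → T.cs f (e A) = 1 := by
    intro A h
    rw [T.cs_eq, he_cl A h, hσ A h, he_nb A h, hfe (m A) (hmm A h)]
    have := hvalm A h
    linarith
  have hnb_ne : ∀ v, m (T.cl v) ≠ T.cl v → v ≠ e (T.cl v) → 0 ≤ f (T.nb v) := by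
    intro v h h'
    by_cases h1 : m (T.cl (T.nb v)) = T.cl (T.nb v)
    · rw [hf0 _ h1]
    · by_cases h2 : T.nb v = e (T.cl (T.nb v))
      · exfalso
        have h3 := he_nb _ h1
        rw [← h2, T.inv] at h3
        have h4 := he_cl (m (T.cl (T.nb v))) (hmm _ h1)
        rw [← h3] at h4
        apply h'
        rw [h4]
        exact h3
      · rw [hf1 _ h1 h2]; norm_num
  have hun : ∀ v, m (T.cl v) = T.cl v → f (T.nb v) = 1 := by
    intro v h
    have h1 : m (T.cl (T.nb v)) ≠ T.cl (T.nb v) := by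
      intro h1
      have hadj : T.H.Adj (T.cl v) (T.cl (T.nb v)) := ⟨(T.ne v).symm, v, rfl, rfl⟩
      have h2 := fixN_put_join h h1 (T.ne v).symm
      have h3 := hmax _ (put_isM hm hadj)
      omega
    apply hf1 _ h1
    intro h2
    have h3 := he_nb _ h1
    rw [← h2, T.inv] at h3
    have h4 := he_cl (m (T.cl (T.nb v))) (hmm _ h1)
    rw [← h3] at h4
    rw [h4, hm.inv] at h
    exact h1 h.symm
  refine ⟨f, ?_, ?_, ?_, ?_⟩
  · intro v
    by_cases h : m (T.cl v) = T.cl v
    · exact Or.inr (Or.inl (hf0 v h))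
    · by_cases h' : v = e (T.cl v)
      · have h1 := hfe _ h
        rw [← h'] at h1
        rw [h1]
        rcases hval (T.cl v) with h2 | h2
        · exact Or.inr (Or.inl h2)
        · exact Or.inl h2
      · exact Or.inr (Or.inr (hf1 v h h'))
  · intro v
    by_cases h : m (T.cl v) = T.cl v
    · rw [T.cs_eq, hσ0 _ h, hun v h]; norm_num
    · by_cases h' : v = e (T.cl v)
      · have h1 := hcs_e _ h
        rw [← h'] at h1
        rw [h1]
      · rw [T.cs_eq, hσ _ h]
        have h1 := hnb_ne v h h'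
        rcases hval (T.cl v) with h2 | h2 <;> rw [h2] <;> linarith
  · intro v
    by_cases h : m (T.cl v) = T.cl v
    · refine ⟨v, Or.inl rfl, ?_⟩
      rw [T.cs_eq, hσ0 _ h, hun v h]; norm_num
    · exact ⟨e (T.cl v), Or.inl (he_cl _ h), hcs_e _ h⟩
  · intro D hD
    have h1 := hD.main m hm hmax
    -- twice the weight
    have h2 : 2 * ∑ v, f v = 3 * ((Fintype.card τ : ℤ) - fixN m) := by
      rw [T.sum_cl f]
      have h3 : ∀ A, 2 * ∑ v ∈ univ.filter (fun v => T.cl v = A), f v =
          3 * (if m A ≠ A then 1 else 0) + (if m A ≠ A then 1 + 2 * val A else 0) := by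
        intro A
        by_cases h : m A = A
        · rw [hσ0 A h, if_neg (not_not.2 h), if_neg (not_not.2 h)]; norm_num
        · rw [hσ A h, if_pos h, if_pos h]; ring
      rw [Finset.mul_sum, Finset.sum_congr rfl (fun A _ => h3 A), Finset.sum_add_distrib,
        ← Finset.mul_sum]
      have h4 : ∑ A, (if m A ≠ A then 1 + 2 * val A else 0) = 0 := by
        rw [← Finset.sum_filter]
        refine Finset.sum_involution (fun A _ => m A) ?_ ?_ ?_ ?_
        · intro A hA
          have := hvalm A (mem_filter.1 hA).2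
          linarith
        · intro A hA _
          exact (mem_filter.1 hA).2
        · intro A hA
          exact mem_filter.2 ⟨mem_univ _, hmm A (mem_filter.1 hA).2⟩
        · intro A _
          exact hm.inv A
      have h5 : ∑ A, (if m A ≠ A then (1 : ℤ) else 0) = (Fintype.card τ : ℤ) - fixN m := by
        rw [Finset.sum_boole]
        have h6 : fixN m + #(univ.filter (fun x => m x ≠ x)) = Fintype.card τ := by
          unfold fixN
          rw [← Finset.card_univ]
          exact Finset.card_filter_add_card_filter_not _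
        rw [← h6]
        push_cast
        ring
      rw [h4, h5, add_zero]
    linarith

end TriSys

end Pool.Agent.H80M
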