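import Mathlib
import Pool.Agent.H80M.Defs
import Pool.Agent.H80M.Fun

set_option autoImplicit false

/-!
Cubic graphs in which every vertex lies on exactly one triangle.
-/

namespace Pool.Agent.H80M

open Finset

variable {V : Type} [Fintype V]

/-- a triangle system of the graph -/
theorem exists_sys [DecidableEq V] (G : SimpleGraph V) (hreg : ∀ v, {u | G.Adj v u}.ncard = 3)
    (htri : ∀ v, ∃! t : Finset V, v ∈ t ∧ G.IsNClique 3 t) :
    ∃ (τ : Type) (_ : Fintype τ) (_ : DecidableEq τ) (T : TriSys V τ),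
      ∀ v u, (u = v ∨ G.Adj v u) ↔ T.Nb v u := by
  classical
  choose t ht huniq using htri
  have hmem : ∀ v, v ∈ t v := fun v => (ht v).1
  have hcl : ∀ v, G.IsNClique 3 (t v) := fun v => (ht v).2
  have heq : ∀ v w, w ∈ t v → t w = t v := fun v w h => (huniq w (t v) ⟨h, hcl v⟩).symm
  have hadj : ∀ v w, w ∈ t v → w ≠ v → G.Adj v w := by
    intro v w h hne
    exact (hcl v).isClique (hmem v) h hne.symm
  -- the external neighbour
  have hext : ∀ v, ∃ u, G.Adj v u ∧ u ∉ t v ∧ ∀ w, G.Adj v w → w ∉ t v → w = u := by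
    intro v
    let Nv : Finset V := univ.filter (fun u => G.Adj v u)
    have hN : #Nv = 3 := by
      rw [← hreg v, ← Set.ncard_coe_finset]
      congr 1
      ext u
      simp [Nv]
    have hsub : (t v).erase v ⊆ Nv := by
      intro w hw
      rw [mem_erase] at hw
      exact mem_filter.2 ⟨mem_univ _, hadj v w hw.2 hw.1⟩
    have hc : #((t v).erase v) = 2 := by
      rw [card_erase_of_mem (hmem v), (hcl v).card_eq]
    have h1 : #(Nv \ (t v).erase v) = 1 := by
      rw [card_sdiff_of_subset hsub, hN, hc]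
    obtain ⟨u, hu⟩ := card_eq_one.1 h1
    have hu' : u ∈ Nv \ (t v).erase v := by rw [hu]; exact mem_singleton_self u
    rw [mem_sdiff, mem_filter, mem_erase] at hu'
    refine ⟨u, hu'.1.2, ?_, ?_⟩
    · intro hut
      exact hu'.2 ⟨hu'.1.2.ne', hut⟩
    · intro w hw hwt
      have : w ∈ Nv \ (t v).erase v := by
        rw [mem_sdiff, mem_filter, mem_erase]
        exact ⟨⟨mem_univ _, hw⟩, fun h => hwt h.2⟩
      rw [hu, mem_singleton] at this
      exact this
  choose nb hnb1 hnb2 hnb3 using hext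
  let τ : Type := {s : Finset V // ∃ v, t v = s}
  let cl : V → τ := fun v => ⟨t v, v, rfl⟩
  have hclv : ∀ v w, cl v = cl w ↔ t v = t w := by
    intro v w
    exact Subtype.ext_iff
  have hclm : ∀ v w, cl w = cl v ↔ w ∈ t v := by
    intro v w
    rw [hclv]
    constructor
    · intro h
      rw [← h]
      exact hmem w
    · exact heq v w
  have hne : ∀ v, cl (nb v) ≠ cl v := by
    intro v h
    rw [hclm] at h
    exact hnb2 v h
  have hinv : ∀ v, nb (nb v) = v := by
    intro v
    symm
    apply hnb3 (nb v) v (hnb1 v).symm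
    intro h
    exact hne v ((hclm (nb v) v).2 h).symm
  refine ⟨τ, inferInstance, inferInstance, ⟨cl, nb, ?_, hinv, hne⟩, ?_⟩
  · rintro ⟨s, v, rfl⟩
    have : univ.filter (fun w => cl w = ⟨t v, v, rfl⟩) = t v := by
      ext w
      rw [mem_filter]
      constructor
      · intro h; exact (hclm v w).1 h.2
      · intro h; exact ⟨mem_univ _, (hclm v w).2 h⟩
    rw [this, (hcl v).card_eq]
  · intro v u
    show _ ↔ (cl u = cl v ∨ u = nb v)
    constructor
    · rintro (h | h)
      · left; rw [h]
      · by_cases hu : u ∈ t v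
        · left; exact (hclm v u).2 hu
        · right; exact hnb3 v u h hu
    · rintro (h | h)
      · have h1 := (hclm v u).1 h
        by_cases hu : u = v
        · exact Or.inl hu
        · exact Or.inr (hadj v u h1 hu)
      · right; rw [h]; exact hnb1 v

theorem exists_minDom (G : SimpleGraph V) : ∃ D : Finset V, IsMinDom G D := by
  classical
  obtain ⟨D, hD, hmin⟩ := Finset.exists_min_image (univ.filter (fun D : Finset V => IsDom G D))
    Finset.card ⟨univ, mem_filter.2 ⟨mem_univ _, fun v => ⟨v, mem_univ _, Or.inl rfl⟩⟩⟩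
  refine ⟨D, (mem_filter.1 hD).2, fun D' hD' h => ?_⟩
  have h1 := hmin D' (mem_filter.2 ⟨mem_univ _, h⟩)
  have h2 := Finset.card_lt_card hD'
  omega

/-- **Upper domination is at most upper minus domination.** -/
theorem gam_le (G : SimpleGraph V) (hreg : ∀ v, {u | G.Adj v u}.ncard = 3)
    (htri : ∀ v, ∃! t : Finset V, v ∈ t ∧ G.IsNClique 3 t) : (Gam G : ℤ) ≤ GamM G := by
  classical
  obtain ⟨τ, _, _, T, hT⟩ := exists_sys G hreg htri
  obtain ⟨f, hf1, hf2, hf3, hf4⟩ := T.exists_f
  have hcs : ∀ (g : V → ℤ) v, nsum G g v = T.cs g v := by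
    intro g v
    unfold nsum TriSys.cs
    refine Finset.sum_congr ?_ (fun _ _ => rfl)
    ext u
    rw [mem_filter, mem_filter, hT]
  have hfm : IsMinus G f := ⟨hf1, fun v => by rw [hcs]; exact hf2 v⟩
  have hfmin : IsMinMinus G f := by
    refine ⟨hfm, ?_⟩
    intro g hg hle
    funext v
    by_contra hne
    have hlt : g v < f v := lt_of_le_of_ne (hle v) hne
    obtain ⟨u, hu1, hu2⟩ := hf3 v
    have h1 : nsum G g u < nsum G f u := by
      unfold nsum
      apply Finset.sum_lt_sum (fun w _ => hle w)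
      refine ⟨v, ?_, hlt⟩
      rw [mem_filter]
      exact ⟨mem_univ _, (hT u v).2 hu1.symm⟩
    have h2 := hg.2 u
    rw [hcs f, hu2] at h1
    linarith
  have hbdd : BddAbove {k : ℤ | ∃ f : V → ℤ, IsMinMinus G f ∧ ∑ v, f v = k} := by
    refine ⟨Fintype.card V, ?_⟩
    rintro k ⟨g, hg, rfl⟩
    calc ∑ v, g v ≤ ∑ _v : V, (1 : ℤ) := by
          apply Finset.sum_le_sum
          intro v _
          rcases hg.1.1 v with h | h | h <;> rw [h] <;> norm_num
      _ = Fintype.card V := by simp
  have h1 : ∑ v, f v ≤ GamM G := le_csSup hbdd ⟨f, hfmin, rfl⟩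
  -- the maximum minimal dominating set
  have hne : {k | ∃ D : Finset V, IsMinDom G D ∧ D.card = k}.Nonempty := by
    obtain ⟨D, hD⟩ := exists_minDom G
    exact ⟨D.card, D, hD, rfl⟩
  have hbd : BddAbove {k | ∃ D : Finset V, IsMinDom G D ∧ D.card = k} := by
    refine ⟨Fintype.card V, ?_⟩
    rintro k ⟨D, _, rfl⟩
    exact Finset.card_le_univ D
  obtain ⟨D, hD, hcard⟩ := Nat.sSup_mem hne hbd
  have hMD : T.MD D := by
    constructor
    · intro v
      obtain ⟨u, hu, h⟩ := hD.1 v
      exact ⟨u, hu, (hT v u).1 h⟩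
    · intro v hv
      have h2 := hD.2 (D.erase v) (Finset.erase_ssubset hv)
      unfold IsDom at h2
      push Not at h2
      obtain ⟨w, hw⟩ := h2
      have h3 : ∀ u ∈ D, T.Nb w u → u = v := by
        intro u hu hwu
        by_contra hne
        have h4 := hw u (Finset.mem_erase.2 ⟨hne, hu⟩)
        rcases (hT w u).2 hwu with h5 | h5
        · exact h4.1 h5
        · exact h4.2 h5
      obtain ⟨u, hu, h⟩ := hD.1 w
      have h5 := (hT w u).1 h
      have h6 := h3 u hu h5
      rw [h6] at h5
      exact ⟨w, h5, h3⟩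
  have h7 := hf4 D hMD
  rw [hcard] at h7
  exact h7.trans h1

end Pool.Agent.H80M
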